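import Mathlib

-- part MP_9d4e03_lc.H37Arith
section

set_option autoImplicit false

/-! Arithmetic core of a randomized 2-server algorithm with ratio below 2. -/

namespace Pool.Agent.TwoSrv

/-- minimum of three reals -/
noncomputable def mn (p : Fin 3 → ℝ) : ℝ := min (p 0) (min (p 1) (p 2))
/-- maximum of three reals -/
noncomputable def mx (p : Fin 3 → ℝ) : ℝ := max (p 0) (max (p 1) (p 2))
/-- sum of three reals -/
noncomputable def sm (p : Fin 3 → ℝ) : ℝ := p 0 + p 1 + p 2

lemma mn_le (p : Fin 3 → ℝ) (i : Fin 3) : mn p ≤ p i := by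
  unfold mn; fin_cases i <;> simp
lemma le_mx (p : Fin 3 → ℝ) (i : Fin 3) : p i ≤ mx p := by
  unfold mx; fin_cases i <;> simp
lemma le_mn {p : Fin 3 → ℝ} {a : ℝ} (h : ∀ i, a ≤ p i) : a ≤ mn p :=
  le_min (h 0) (le_min (h 1) (h 2))
lemma mx_le {p : Fin 3 → ℝ} {a : ℝ} (h : ∀ i, p i ≤ a) : mx p ≤ a :=
  max_le (h 0) (max_le (h 1) (h 2))
lemma exists_mn (p : Fin 3 → ℝ) : ∃ i, mn p = p i := by
  unfold mn
  rcases min_choice (p 0) (min (p 1) (p 2)) with h | h
  · exact ⟨0, h⟩
  · rcases min_choice (p 1) (p 2) with h' | h'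
    · exact ⟨1, h.trans h'⟩
    · exact ⟨2, h.trans h'⟩
lemma exists_mx (p : Fin 3 → ℝ) : ∃ i, mx p = p i := by
  unfold mx
  rcases max_choice (p 0) (max (p 1) (p 2)) with h | h
  · exact ⟨0, h⟩
  · rcases max_choice (p 1) (p 2) with h' | h'
    · exact ⟨1, h.trans h'⟩
    · exact ⟨2, h.trans h'⟩
lemma le_sm {p : Fin 3 → ℝ} (h : ∀ i, 0 ≤ p i) (i : Fin 3) : p i ≤ sm p := by
  have h0 := h 0; have h1 := h 1; have h2 := h 2
  unfold sm; fin_cases i <;> simp <;> linarith
lemma sm_nonneg {p : Fin 3 → ℝ} (h : ∀ i, 0 ≤ p i) : 0 ≤ sm p := by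
  have h0 := h 0; have h1 := h 1; have h2 := h 2
  unfold sm; linarith
lemma sm_le_sm {p q : Fin 3 → ℝ} (h : ∀ i, p i ≤ q i) : sm p ≤ sm q := by
  have h0 := h 0; have h1 := h 1; have h2 := h 2
  unfold sm; linarith
lemma mn_perm (p : Fin 3 → ℝ) (π : Equiv.Perm (Fin 3)) : mn (fun i => p (π i)) = mn p := by
  apply le_antisymm
  · exact le_mn fun i => by simpa using mn_le (fun i => p (π i)) (π.symm i)
  · exact le_mn fun i => mn_le p (π i)
lemma mx_perm (p : Fin 3 → ℝ) (π : Equiv.Perm (Fin 3)) : mx (fun i => p (π i)) = mx p := by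
  apply le_antisymm
  · exact mx_le fun i => le_mx p (π i)
  · exact mx_le fun i => by simpa using le_mx (fun i => p (π i)) (π.symm i)
lemma sm_perm (p : Fin 3 → ℝ) (π : Equiv.Perm (Fin 3)) : sm (fun i => p (π i)) = sm p := by
  have h := Equiv.sum_comp π p
  simpa [Fin.sum_univ_three, sm] using h

/-- clipped coordinates -/
noncomputable def cl (p R : Fin 3 → ℝ) : Fin 3 → ℝ :=
  fun i => p i - max 0 (R i - p i - mn R) / 108
/-- concave rank-weighted part -/
noncomputable def O (p : Fin 3 → ℝ) : ℝ := 12 * mn p - 6 * mx p - 2 * sm p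
/-- bonus part -/
noncomputable def Sp (p R : Fin 3 → ℝ) : ℝ := mx p - mx (cl p R)
/-- the first-order potential -/
noncomputable def T (p R : Fin 3 → ℝ) : ℝ := O p + 18 * Sp p R

lemma T_perm (p R : Fin 3 → ℝ) (π : Equiv.Perm (Fin 3)) :
    T (fun i => p (π i)) (fun i => R (π i)) = T p R := by
  have h : cl (fun i => p (π i)) (fun i => R (π i)) = fun i => cl p R (π i) := by
    funext i; simp only [cl, mn_perm]
  simp only [T, O, Sp, h, mn_perm, mx_perm, sm_perm]

lemma Sp_nonneg (p R : Fin 3 → ℝ) : 0 ≤ Sp p R := by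
  have : mx (cl p R) ≤ mx p := mx_le fun i => by
    have := le_mx p i
    have := le_max_left 0 (R i - p i - mn R)
    simp only [cl]; linarith
  unfold Sp; linarith
lemma Sp_le (p R : Fin 3 → ℝ) (i : Fin 3) {a : ℝ} (ha : 0 ≤ a) (h : R i - p i - mn R ≤ a) :
    Sp p R ≤ mx p - p i + a / 108 := by
  have h1 := le_mx (cl p R) i
  have h2 : max 0 (R i - p i - mn R) ≤ a := max_le ha h
  simp only [cl] at h1
  unfold Sp; linarith
lemma le_Sp (p R : Fin 3 → ℝ) {a : ℝ}
    (h : ∀ i, p i ≤ a ∨ p i - (R i - p i - mn R) / 108 ≤ a) : mx p - a ≤ Sp p R := by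
  have : mx (cl p R) ≤ a := mx_le fun i => by
    have h1 := le_max_left 0 (R i - p i - mn R)
    have h2 := le_max_right 0 (R i - p i - mn R)
    simp only [cl]
    rcases h i with h | h <;> linarith
  unfold Sp; linarith

lemma T_lip {p q R Q d d' : Fin 3 → ℝ} (hd : ∀ i, 0 ≤ d i) (hd' : ∀ i, 0 ≤ d' i)
    (h1 : ∀ i, q i ≤ p i + d i) (h2 : ∀ i, p i ≤ q i + d i)
    (h3 : ∀ i, Q i ≤ R i + d' i) (h4 : ∀ i, R i ≤ Q i + d' i) :
    T q Q ≤ T p R + 45 * sm d + sm d' := by
  have a1 : mn q ≤ mn p + sm d := by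
    obtain ⟨i, hi⟩ := exists_mn p
    have := mn_le q i; have := h1 i; have := le_sm hd i; linarith
  have a2 : mx q ≤ mx p + sm d := mx_le fun i => by
    have := le_mx p i; have := h1 i; have := le_sm hd i; linarith
  have a3 : sm p ≤ sm q + sm d := by
    have := h2 0; have := h2 1; have := h2 2; unfold sm; linarith
  have a4 : mn R ≤ mn Q + sm d' := by
    obtain ⟨i, hi⟩ := exists_mn Q
    have := mn_le R i; have := h4 i; have := le_sm hd' i; linarith
  have a5 : mx (cl p R) ≤ mx (cl q Q) + sm d + (sm d + 2 * sm d') / 108 := mx_le fun i => by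
    have b1 := le_mx (cl q Q) i
    have b2 := h1 i; have b3 := h2 i; have b4 := h3 i
    have b5 := le_sm hd i; have b6 := le_sm hd' i
    have b7 := sm_nonneg hd; have b8 := sm_nonneg hd'
    have c1 := le_max_left 0 (R i - p i - mn R)
    have c2 := le_max_right 0 (R i - p i - mn R)
    have c3 : max 0 (Q i - q i - mn Q) ≤ max 0 (R i - p i - mn R) + (sm d + 2 * sm d') :=
      max_le (by linarith) (by linarith)
    simp only [cl] at b1 ⊢
    linarith
  have := sm_nonneg hd; have := sm_nonneg hd'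
  unfold T O Sp; linarith

lemma T_shift (p R : Fin 3 → ℝ) {κ : ℝ} (hκ : 0 ≤ κ) : T (fun i => p i + κ) R ≤ T p R := by
  have a1 : mn (fun i => p i + κ) ≤ mn p + κ := by
    obtain ⟨i, hi⟩ := exists_mn p
    have := mn_le (fun i => p i + κ) i; linarith
  have a2 : mx (fun i => p i + κ) ≤ mx p + κ := mx_le fun i => by
    have := le_mx p i; linarith
  have a3 : sm (fun i => p i + κ) = sm p + 3 * κ := by unfold sm; ring
  have a5 : mx (cl p R) ≤ mx (cl (fun i => p i + κ) R) - κ := mx_le fun i => by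
    have b1 := le_mx (cl (fun i => p i + κ) R) i
    have c1 := le_max_left 0 (R i - p i - mn R)
    have c2 := le_max_right 0 (R i - p i - mn R)
    have c3 : max 0 (R i - (p i + κ) - mn R) ≤ max 0 (R i - p i - mn R) :=
      max_le (by linarith) (by linarith)
    simp only [cl] at b1 ⊢
    linarith
  unfold T O Sp; linarith

lemma T_lower {p R : Fin 3 → ℝ} (h0 : ∀ i, 0 ≤ p i) (h1 : ∀ i, p i ≤ R i) :
    -8 * sm R ≤ T p R := by
  have a1 := Sp_nonneg p R
  have a2 : 0 ≤ mn p := le_mn h0
  have a3 : mx p ≤ sm p := mx_le (le_sm h0)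
  have a4 := sm_le_sm h1
  unfold T O; linarith

/-- remaining outer leg after a move -/
noncomputable def Nn (N σ : Fin 3 → ℝ) : Fin 3 → ℝ := fun i => max 0 (N i - σ i)
/-- remaining inner leg after a move -/
noncomputable def Kn (N K σ : Fin 3 → ℝ) : Fin 3 → ℝ := fun i => min (K i) (N i + K i - σ i)
/-- new distance to the request -/
noncomputable def Rn (D : ℝ) (N K σ : Fin 3 → ℝ) : Fin 3 → ℝ :=
  fun i => Nn N σ i + D - Kn N K σ i

lemma Nn_add_Kn (N K σ : Fin 3 → ℝ) (i : Fin 3) :
    Nn N σ i + Kn N K σ i = N i + K i - σ i := by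
  simp only [Nn, Kn]
  rcases le_total (N i) (σ i) with h | h
  · rw [max_eq_left (by linarith), min_eq_right (by linarith)]; ring
  · rw [max_eq_right (by linarith), min_eq_left (by linarith)]; ring

/-- the error hypotheses on a hidden adversary position -/
structure Tok (N K σ : Fin 3 → ℝ) (y : ℝ) (p e : Fin 3 → ℝ) : Prop where
  y0 : 0 ≤ y
  p0 : ∀ i, 0 ≤ p i
  p1 : ∀ i, 0 ≤ p i + y - K i
  near : ∀ i, N i + K i - σ i ≤ 110 * sm (Kn N K σ) → p i ≤ e i
  far : ∀ i, min (110 * sm (Kn N K σ)) (min (p i) (p i + y - K i)) ≤ e i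

/-- balanced moves -/
structure Bal (N K σ : Fin 3 → ℝ) : Prop where
  N0 : ∀ i, 0 ≤ N i
  K0 : ∀ i, 0 ≤ K i
  s0 : ∀ i, 0 ≤ σ i
  sR : ∀ i, σ i ≤ N i + K i
  bal : sm σ = sm K

namespace Bal
variable {N K σ : Fin 3 → ℝ}
lemma Kn0 (h : Bal N K σ) (i : Fin 3) : 0 ≤ Kn N K σ i :=
  le_min (h.K0 i) (by have := h.sR i; linarith)
lemma KnK (_h : Bal N K σ) (i : Fin 3) : Kn N K σ i ≤ K i := min_le_left _ _
lemma Nn0 (_h : Bal N K σ) (i : Fin 3) : 0 ≤ Nn N σ i := le_max_left _ _
lemma NnN (h : Bal N K σ) (i : Fin 3) : Nn N σ i ≤ N i :=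
  max_le (h.N0 i) (by have := h.s0 i; linarith)
lemma sum_eq (h : Bal N K σ) : sm N - sm (Nn N σ) = sm (Kn N K σ) := by
  have := Nn_add_Kn N K σ 0; have := Nn_add_Kn N K σ 1; have := Nn_add_Kn N K σ 2
  have := h.bal
  unfold sm at *; linarith
lemma drop_le (h : Bal N K σ) (i : Fin 3) : N i - Nn N σ i ≤ sm (Kn N K σ) := by
  have := le_sm (p := fun i => N i - Nn N σ i) (fun j => by have := h.NnN j; linarith) i
  have := h.sum_eq
  unfold sm at *; linarith
lemma Kn_le (h : Bal N K σ) (i : Fin 3) : Kn N K σ i ≤ sm (Kn N K σ) := le_sm h.Kn0 i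
lemma Sg0 (h : Bal N K σ) : 0 ≤ sm (Kn N K σ) := sm_nonneg h.Kn0
lemma far_K (h : Bal N K σ) (i : Fin 3) (hf : 110 * sm (Kn N K σ) < N i + K i - σ i) :
    Kn N K σ i = K i := by
  have h1 := h.Kn_le i
  have h2 := h.Sg0
  rcases min_choice (K i) (N i + K i - σ i) with h3 | h3
  · exact h3
  · exfalso
    have : Kn N K σ i = N i + K i - σ i := h3
    linarith
lemma mnRn (h : Bal N K σ) (D : ℝ) : D - sm (Kn N K σ) ≤ mn (Rn D N K σ) := le_mn fun i => by
  have := h.Kn_le i; have := h.Nn0 i
  simp only [Rn]; linarith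
end Bal

lemma Tok.e0 {N K σ : Fin 3 → ℝ} {y : ℝ} {p e : Fin 3 → ℝ} (hb : Bal N K σ)
    (h : Tok N K σ y p e) (i : Fin 3) : 0 ≤ e i :=
  le_trans (le_min (by have := hb.Sg0; linarith) (le_min (h.p0 i) (h.p1 i))) (h.far i)

lemma crude (D : ℝ) {N K σ : Fin 3 → ℝ} {y : ℝ} {p e : Fin 3 → ℝ} (hb : Bal N K σ)
    (h : Tok N K σ y p e) :
    T (fun i => p i + y - Kn N K σ i) (Rn D N K σ) ≤
      T p (fun i => N i + K i) + 27 * sm (Kn N K σ) + sm e / 6 := by
  set Sg := sm (Kn N K σ) with hSg
  set q : Fin 3 → ℝ := fun i => p i + y - Kn N K σ i with hq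
  have hS := hb.Sg0
  have hE := sm_nonneg (h.e0 hb)
  have a1 : mn q ≤ mn p + y := by
    obtain ⟨i, hi⟩ := exists_mn p
    have := mn_le q i; have := hb.Kn0 i; simp only [hq] at *; linarith
  have a2 : mx q ≤ mx p + y := mx_le fun i => by
    have := le_mx p i; have := hb.Kn0 i; simp only [hq]; linarith
  have a2' : mx p ≤ mx q - y + Sg := mx_le fun i => by
    have := le_mx q i; have := hb.Kn_le i; simp only [hq] at *; linarith
  have a3 : sm q = sm p + 3 * y - Sg := by simp only [hq, hSg, sm]; ring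
  have a4 : mn (fun i => N i + K i) ≤ mn (Rn D N K σ) - D + y + 3 * Sg + sm e := by
    obtain ⟨i, hi⟩ := exists_mn (Rn D N K σ)
    have b1 := mn_le (fun i => N i + K i) i
    have b2 := hb.drop_le i
    have b3 := hb.Kn_le i
    have b4 := le_sm (h.e0 hb) i
    have b5 := h.p1 i
    have b6 := h.y0
    simp only [Rn] at hi b1
    rcases le_or_gt (N i + K i - σ i) (110 * Sg) with hn | hf
    · have := h.near i hn; linarith
    · have := hb.far_K i hf; linarith
  obtain ⟨i, hi⟩ := exists_mx (cl p (fun i => N i + K i))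
  have c1 := le_max_left 0 (N i + K i - p i - mn (fun i => N i + K i))
  have c2 := le_max_right 0 (N i + K i - p i - mn (fun i => N i + K i))
  have c3 := Sp_le q (Rn D N K σ) i
    (a := max 0 (N i + K i - p i - mn (fun i => N i + K i)) + (3 * Sg + sm e)) (by linarith)
    (by
      have := hb.NnN i; have := hb.K0 i
      simp only [Rn, hq]; linarith)
  have c4 := hb.Kn_le i
  simp only [cl] at hi
  have c5 : q i = p i + y - Kn N K σ i := rfl
  unfold T O
  unfold Sp at *
  linarith

section small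
variable {N K σ : Fin 3 → ℝ} {y : ℝ} {p e : Fin 3 → ℝ}

lemma Tok.alt (hb : Bal N K σ) (h : Tok N K σ y p e)
    (hs : ∀ i, e i < 110 * sm (Kn N K σ)) (i : Fin 3) :
    p i ≤ e i ∨ (p i + y - K i ≤ e i ∧ Kn N K σ i = K i ∧
      110 * sm (Kn N K σ) < N i + K i - σ i) := by
  rcases le_or_gt (N i + K i - σ i) (110 * sm (Kn N K σ)) with hn | hf
  · exact Or.inl (h.near i hn)
  · have h1 := h.far i
    have h2 := hs i
    rcases min_le_iff.1 h1 with h3 | h3
    · linarith
    · rcases min_le_iff.1 h3 with h4 | h4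
      · exact Or.inl h4
      · exact Or.inr ⟨h4, hb.far_K i hf, hf⟩

lemma Tok.q_le (hb : Bal N K σ) (h : Tok N K σ y p e)
    (hs : ∀ i, e i < 110 * sm (Kn N K σ)) :
    mx (fun i => p i + y - Kn N K σ i) ≤ y + sm e := mx_le fun i => by
  have := le_sm (h.e0 hb) i
  have := hb.Kn0 i
  have := h.y0
  rcases h.alt hb hs i with h1 | ⟨h1, h2, _⟩ <;> linarith

lemma Tok.q0 (hb : Bal N K σ) (h : Tok N K σ y p e) (i : Fin 3) :
    0 ≤ p i + y - Kn N K σ i := by
  have := h.p1 i; have := hb.KnK i; linarith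

lemma caseA (D : ℝ) (hb : Bal N K σ) (h : Tok N K σ y p e)
    (hs : ∀ i, e i < 110 * sm (Kn N K σ)) :
    T (fun i => p i + y - Kn N K σ i) (Rn D N K σ) ≤
      T p (fun i => N i + K i) + 8 * sm (Kn N K σ) + 18 * sm e := by
  have a1 := h.q_le hb hs
  have a2 := Sp_nonneg p (fun i => N i + K i)
  have a3 : sm (fun i => p i + y - Kn N K σ i) = sm p + 3 * y - sm (Kn N K σ) := by
    simp only [sm]; ring
  have a4 : 0 ≤ mn p := le_mn h.p0
  have a5 : 0 ≤ mn (fun i => p i + y - Kn N K σ i) := le_mn (h.q0 hb)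
  have a6 : y - sm (Kn N K σ) ≤ mn (fun i => p i + y - Kn N K σ i) := le_mn fun i => by
    have := h.p0 i; have := hb.Kn_le i; linarith
  obtain ⟨i, hi⟩ := exists_mn (Rn D N K σ)
  have a7 := Sp_le (fun i => p i + y - Kn N K σ i) (Rn D N K σ) i (a := 0) le_rfl
    (by have := h.q0 hb i; linarith)
  have a8 := mn_le (fun i => p i + y - Kn N K σ i) i
  obtain ⟨j, hj⟩ := exists_mx p
  have a9 := le_sm (h.e0 hb) j
  have a10 := hb.Kn_le j
  unfold T O
  rcases h.alt hb hs j with h1 | ⟨h1, h2, _⟩ <;> linarith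

lemma ovf (D : ℝ) (hb : Bal N K σ) (h : Tok N K σ y p e)
    (hs : ∀ i, e i < 110 * sm (Kn N K σ)) {a : Fin 3} (ha : σ a = N a + K a) :
    Kn N K σ a = 0 ∧ p a ≤ e a ∧
    Sp (fun i => p i + y - Kn N K σ i) (Rn D N K σ) ≤ sm e + sm (Kn N K σ) / 108 ∧
    mx p - 2 * sm e ≤ Sp p (fun i => N i + K i) := by
  have hS := hb.Sg0
  have k0 : Kn N K σ a = 0 := by
    have := hb.K0 a
    simp only [Kn, ha]; rw [min_eq_right (by linarith)]; ring
  have n0 : Nn N σ a = 0 := by have := Nn_add_Kn N K σ a; linarith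
  have pa : p a ≤ e a := h.near a (by linarith)
  refine ⟨k0, pa, ?_, ?_⟩
  · have a1 := h.q_le hb hs
    have a2 := h.p0 a
    have a3 := h.y0
    have a4 := hb.mnRn D
    have a7 := Sp_le (fun i => p i + y - Kn N K σ i) (Rn D N K σ) a (a := sm (Kn N K σ)) hS
      (by simp only [Rn] at *; linarith)
    linarith
  · apply le_Sp
    intro i
    have b1 := le_sm (h.e0 hb) i
    have b2 := le_sm (h.e0 hb) a
    have b3 := sm_nonneg (h.e0 hb)
    rcases h.alt hb hs i with h1 | ⟨h1, h2, h3⟩
    · left; linarith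
    · right
      have := mn_le (fun i => N i + K i) a
      have := hb.Kn_le i
      have := hb.drop_le a
      have := h.p1 a
      have := hb.s0 i
      have := h.y0
      linarith

end small

lemma core_idx (D : ℝ) {N K σ : Fin 3 → ℝ} (hb : Bal N K σ) {a b c : Fin 3}
    (hsm : ∀ q : Fin 3 → ℝ, sm q = q a + q b + q c)
    (hmn : mn N = N a) (hmx : mx N = N c)
    (hc : (σ b = 0 ∧ σ c = 0) ∨ (σ a = N a + K a ∧ σ c = 0) ∨
      (σ a = N a + K a ∧ σ b = N b + K b)) :
    ∃ X : ℝ, -10 * sm (Kn N K σ) ≤ X ∧ X ≤ 10 * sm (Kn N K σ) ∧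
      2 / 3 * sm (Kn N K σ) + T (Nn N σ) (Rn D N K σ) ≤ T N (fun i => N i + K i) + X ∧
      ∀ y p e, Tok N K σ y p e →
        sm (Kn N K σ) + T (fun i => p i + y - Kn N K σ i) (Rn D N K σ) + X ≤
          T p (fun i => N i + K i) + 56 * sm e := by
  have hS := hb.Sg0
  have da := hb.NnN a; have db := hb.NnN b; have dc := hb.NnN c
  have hsum := hb.sum_eq
  have z : ∀ i, σ i = 0 → Nn N σ i = N i := fun i hi => by
    simp only [Nn, hi, sub_zero]; exact max_eq_right (hb.N0 i)
  have sN := hsm N; have sN' := hsm (Nn N σ)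
  refine ⟨5 / 6 * sm (Kn N K σ) - 10 * (N a - Nn N σ a) + 2 * (N b - Nn N σ b)
    + 8 * (N c - Nn N σ c), by linarith, by linarith, ?_, ?_⟩
  · obtain ⟨i, hi⟩ := exists_mx (Nn N σ)
    have a1 := Sp_le (Nn N σ) (Rn D N K σ) i (a := sm (Kn N K σ)) hS (by
      have := hb.mnRn D; have := hb.Kn0 i
      simp only [Rn] at *; linarith)
    have a2 := Sp_nonneg N (fun i => N i + K i)
    have a3 := mn_le (Nn N σ) a
    have a4 := le_mx (Nn N σ) c
    unfold T O; linarith
  · intro y p e h
    have hE := sm_nonneg (h.e0 hb)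
    by_cases hs : ∀ i, e i < 110 * sm (Kn N K σ)
    swap
    · push Not at hs
      obtain ⟨i, hi⟩ := hs
      have := le_sm (h.e0 hb) i
      have := crude D hb h
      linarith
    have sq := hsm (fun i => p i + y - Kn N K σ i)
    have sp := hsm p
    have se := hsm e
    have sK := hsm (Kn N K σ)
    have pa := le_mx p a; have pb := le_mx p b; have pc := le_mx p c
    have qa := le_mx (fun i => p i + y - Kn N K σ i) a
    have qb := mn_le (fun i => p i + y - Kn N K σ i) b
    have qc := mn_le (fun i => p i + y - Kn N K σ i) c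
    have ea := h.e0 hb a; have eb := h.e0 hb b; have ec := h.e0 hb c
    have p0a := h.p0 a; have p0b := h.p0 b
    have mp : 0 ≤ mn p := le_mn h.p0
    rcases hc with ⟨h1, h2⟩ | ⟨h1, h2⟩ | ⟨h1, h2⟩
    · have := caseA D hb h hs
      have := z b h1; have := z c h2
      linarith
    · obtain ⟨k0, o1, o2, o3⟩ := ovf D hb h hs h1
      have := z c h2
      have qa' := mn_le (fun i => p i + y - Kn N K σ i) a
      have hq : 2 * mn (fun i => p i + y - Kn N K σ i) + mx (fun i => p i + y - Kn N K σ i)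
          ≤ sm (fun i => p i + y - Kn N K σ i) := by
        obtain ⟨i, hi⟩ := exists_mx (fun i => p i + y - Kn N K σ i)
        have q0 := mn_le (fun i => p i + y - Kn N K σ i) 0
        have q1 := mn_le (fun i => p i + y - Kn N K σ i) 1
        have q2 := mn_le (fun i => p i + y - Kn N K σ i) 2
        rw [hi]; unfold sm
        fin_cases i <;> simp at * <;> linarith
      unfold T O
      linarith
    · obtain ⟨k0, o1, o2, o3⟩ := ovf D hb h hs h1
      obtain ⟨k1, o4, -, -⟩ := ovf D hb h hs h2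
      unfold T O
      linarith

lemma core (D : ℝ) {N K : Fin 3 → ℝ} (N0 : ∀ i, 0 ≤ N i) (K0 : ∀ i, 0 ≤ K i) :
    ∃ (σ : Fin 3 → ℝ) (X : ℝ), Bal N K σ ∧ -10 * sm (Kn N K σ) ≤ X ∧
      X ≤ 10 * sm (Kn N K σ) ∧
      2 / 3 * sm (Kn N K σ) + T (Nn N σ) (Rn D N K σ) ≤ T N (fun i => N i + K i) + X ∧
      ∀ y p e, Tok N K σ y p e →
        sm (Kn N K σ) + T (fun i => p i + y - Kn N K σ i) (Rn D N K σ) + X ≤
          T p (fun i => N i + K i) + 56 * sm e := by
  set π := Tuple.sort N with hπ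
  have hm := Tuple.monotone_sort N
  have hsm : ∀ q : Fin 3 → ℝ, sm q = q (π 0) + q (π 1) + q (π 2) := fun q => by
    rw [← sm_perm q π]; rfl
  have hmn : mn N = N (π 0) := le_antisymm (mn_le _ _) (le_mn fun i => by
    have := hm (Fin.zero_le (π.symm i)); simpa [← hπ] using this)
  have hmx : mx N = N (π 2) := le_antisymm (mx_le fun i => by
    have := hm (Fin.le_last (π.symm i)); simpa [← hπ] using this) (le_mx _ _)
  have key : ∀ s : Fin 3 → ℝ, (∀ j, 0 ≤ s j) → (∀ j, s j ≤ N (π j) + K (π j)) →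
      s 0 + s 1 + s 2 = sm K → Bal N K (fun i => s (π.symm i)) := fun s h1 h2 h3 =>
    ⟨N0, K0, fun i => h1 _, fun i => by simpa using h2 (π.symm i),
      by rw [hsm]; simpa using h3⟩
  have sK := hsm K
  have n0 := N0 (π 0); have n1 := N0 (π 1); have n2 := N0 (π 2)
  have k0 := K0 (π 0); have k1 := K0 (π 1); have k2 := K0 (π 2)
  rcases le_total (sm K) (N (π 0) + K (π 0)) with h1 | h1
  · have hb := key ![sm K, 0, 0] (fun j => by fin_cases j <;> simp <;> linarith)
      (fun j => by fin_cases j <;> simp <;> linarith) (by simp)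
    obtain ⟨X, hX⟩ := core_idx D hb hsm hmn hmx (Or.inl (by simp))
    exact ⟨_, X, hb, hX⟩
  rcases le_total (sm K) (N (π 0) + K (π 0) + (N (π 1) + K (π 1))) with h2 | h2
  · have hb := key ![N (π 0) + K (π 0), sm K - (N (π 0) + K (π 0)), 0]
      (fun j => by fin_cases j <;> simp <;> linarith)
      (fun j => by fin_cases j <;> simp <;> linarith) (by simp)
    obtain ⟨X, hX⟩ := core_idx D hb hsm hmn hmx (Or.inr (Or.inl (by simp)))
    exact ⟨_, X, hb, hX⟩
  · have hb := key ![N (π 0) + K (π 0), N (π 1) + K (π 1),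
        sm K - (N (π 0) + K (π 0) + (N (π 1) + K (π 1)))]
      (fun j => by fin_cases j <;> simp <;> linarith)
      (fun j => by fin_cases j <;> simp <;> linarith) (by simp)
    obtain ⟨X, hX⟩ := core_idx D hb hsm hmn hmx (Or.inr (Or.inr (by simp)))
    exact ⟨_, X, hb, hX⟩

lemma pert (D : ℝ) {N K σ τ d : Fin 3 → ℝ} (h1 : ∀ i, τ i ≤ σ i + d i)
    (h2 : ∀ i, σ i ≤ τ i + d i) (i : Fin 3) :
    Nn N τ i ≤ Nn N σ i + d i ∧ Nn N σ i ≤ Nn N τ i + d i ∧
    Kn N K τ i ≤ Kn N K σ i + d i ∧ Kn N K σ i ≤ Kn N K τ i + d i ∧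
    Rn D N K τ i ≤ Rn D N K σ i + d i ∧ Rn D N K σ i ≤ Rn D N K τ i + d i := by
  have a := h1 i; have b := h2 i
  simp only [Rn, Nn, Kn]
  rcases le_total (N i) (σ i) with h | h <;> rcases le_total (N i) (τ i) with h' | h'
  · rw [max_eq_left (by linarith : N i - σ i ≤ 0), max_eq_left (by linarith : N i - τ i ≤ 0),
      min_eq_right (by linarith : N i + K i - σ i ≤ K i),
      min_eq_right (by linarith : N i + K i - τ i ≤ K i)]
    refine ⟨?_, ?_, ?_, ?_, ?_, ?_⟩ <;> linarith
  · rw [max_eq_left (by linarith : N i - σ i ≤ 0), max_eq_right (by linarith : 0 ≤ N i - τ i),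
      min_eq_right (by linarith : N i + K i - σ i ≤ K i),
      min_eq_left (by linarith : K i ≤ N i + K i - τ i)]
    refine ⟨?_, ?_, ?_, ?_, ?_, ?_⟩ <;> linarith
  · rw [max_eq_right (by linarith : 0 ≤ N i - σ i), max_eq_left (by linarith : N i - τ i ≤ 0),
      min_eq_left (by linarith : K i ≤ N i + K i - σ i),
      min_eq_right (by linarith : N i + K i - τ i ≤ K i)]
    refine ⟨?_, ?_, ?_, ?_, ?_, ?_⟩ <;> linarith
  · rw [max_eq_right (by linarith : 0 ≤ N i - σ i), max_eq_right (by linarith : 0 ≤ N i - τ i),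
      min_eq_left (by linarith : K i ≤ N i + K i - σ i),
      min_eq_left (by linarith : K i ≤ N i + K i - τ i)]
    refine ⟨?_, ?_, ?_, ?_, ?_, ?_⟩ <;> linarith

/-- change of the potential when the adversary serves with its hidden server -/
noncomputable def valB (D : ℝ) (N K σ : Fin 3 → ℝ) : ℝ :=
  2 / 3 * (sm K - sm σ) + 1 / 10 ^ 8 * (2 / 3 * (sm N - sm (Nn N σ)) + T (Nn N σ) (Rn D N K σ))
/-- change of the potential when the adversary serves with its visible server -/
noncomputable def valA (D : ℝ) (N K σ : Fin 3 → ℝ) (y : ℝ) (p sl : Fin 3 → ℝ) : ℝ :=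
  2 / 3 * (sm σ - sm K) - (2 - 1 / 10 ^ 8) / 3 * sm sl + 1 / 10 ^ 8 * (2 / 3 * sm (Kn N K σ)
    + T (fun i => p i + y - Kn N K σ i - sl i / 2) (Rn D N K σ))

lemma pertB (D : ℝ) (N K : Fin 3 → ℝ) {σ τ d : Fin 3 → ℝ} (hd : ∀ i, 0 ≤ d i)
    (h1 : ∀ i, τ i ≤ σ i + d i) (h2 : ∀ i, σ i ≤ τ i + d i) :
    valB D N K τ ≤ 2 / 3 * (sm K - sm τ) + 1 / 10 ^ 8 * (2 / 3 * (sm N - sm (Nn N σ))
      + T (Nn N σ) (Rn D N K σ) + 47 * sm d) := by
  have P := pert D (N := N) (K := K) h1 h2
  have a := T_lip hd hd (fun i => (P i).1) (fun i => (P i).2.1) (fun i => (P i).2.2.2.2.1)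
    (fun i => (P i).2.2.2.2.2)
  have b : sm (Nn N σ) ≤ sm (Nn N τ) + sm d := by
    have := (P 0).2.1; have := (P 1).2.1; have := (P 2).2.1; unfold sm; linarith
  have := sm_nonneg hd
  unfold valB; linarith

lemma pertA (D : ℝ) (N K : Fin 3 → ℝ) {σ τ d : Fin 3 → ℝ} (hd : ∀ i, 0 ≤ d i)
    (h1 : ∀ i, τ i ≤ σ i + d i) (h2 : ∀ i, σ i ≤ τ i + d i) (y : ℝ) (p : Fin 3 → ℝ)
    {sl : Fin 3 → ℝ} (hs : ∀ i, 0 ≤ sl i) :
    valA D N K τ y p sl ≤ 2 / 3 * (sm τ - sm K) - 1 / 2 * sm sl + 1 / 10 ^ 8 *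
      (2 / 3 * sm (Kn N K σ) + T (fun i => p i + y - Kn N K σ i) (Rn D N K σ) + 47 * sm d) := by
  have P := pert D (N := N) (K := K) h1 h2
  have a := T_lip (p := fun i => p i + y - Kn N K σ i)
    (q := fun i => p i + y - Kn N K τ i - sl i / 2) (d := fun i => d i + sl i / 2)
    (fun i => by have := hd i; have := hs i; linarith) hd
    (fun i => by have := (P i).2.2.2.1; have := hs i; linarith)
    (fun i => by have := (P i).2.2.1; linarith) (fun i => (P i).2.2.2.2.1)
    (fun i => (P i).2.2.2.2.2)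
  have b : sm (Kn N K τ) ≤ sm (Kn N K σ) + sm d := by
    have := (P 0).2.2.1; have := (P 1).2.2.1; have := (P 2).2.2.1; unfold sm; linarith
  have c : sm (fun i => d i + sl i / 2) = sm d + sm sl / 2 := by unfold sm; ring
  have := sm_nonneg hd
  have := sm_nonneg hs
  unfold valA; linarith

theorem step (D : ℝ) {N K : Fin 3 → ℝ} (N0 : ∀ i, 0 ≤ N i) (K0 : ∀ i, 0 ≤ K i) :
    ∃ σ : Bool → Fin 3 → ℝ, (∀ b i, 0 ≤ σ b i ∧ σ b i ≤ N i + K i) ∧
      1 / 250000 * valB D N K (σ true) + (1 - 1 / 250000) * valB D N K (σ false) ≤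
        1 / 10 ^ 8 * T N (fun i => N i + K i) ∧
      ∀ (y : ℝ) (p : Fin 3 → ℝ) (sl : Bool → Fin 3 → ℝ), 0 ≤ y → (∀ i, 0 ≤ p i) →
        (∀ i, 0 ≤ p i + y - K i) →
        (∀ b i, min (σ b i) (min (p i) (p i + y - K i)) ≤ sl b i) →
        (∀ b i, σ b i = N i + K i → p i ≤ sl b i) →
        1 / 250000 * valA D N K (σ true) y p (sl true)
          + (1 - 1 / 250000) * valA D N K (σ false) y p (sl false) ≤
          1 / 10 ^ 8 * T p (fun i => N i + K i) := by
  obtain ⟨σ, X, hb, X1, X2, hB, hA⟩ := core D N0 K0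
  have hS := hb.Sg0
  have hsum := hb.sum_eq
  have bal := hb.bal
  set Sg := sm (Kn N K σ) with hSg
  set dJ : Fin 3 → ℝ := fun i => min (N i + K i - σ i) (110 * Sg) with hdJ
  have dJ0 : ∀ i, 0 ≤ dJ i := fun i => le_min (by have := hb.sR i; linarith) (by linarith)
  have J1 : Sg ≤ sm dJ := by
    by_cases h : ∃ i, 110 * Sg ≤ N i + K i - σ i
    · obtain ⟨i, hi⟩ := h
      have := le_sm dJ0 i
      have : dJ i = 110 * Sg := min_eq_right hi
      linarith
    · push Not at h
      have h' : ∀ i, dJ i = N i + K i - σ i := fun i => min_eq_left (h i).le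
      have := h' 0; have := h' 1; have := h' 2
      have := sm_nonneg hb.Nn0
      unfold sm at *; linarith
  have J2 : sm dJ ≤ 330 * Sg := by
    have h' : ∀ i, dJ i ≤ 110 * Sg := fun i => min_le_right _ _
    have := h' 0; have := h' 1; have := h' 2
    unfold sm; linarith
  obtain ⟨θ, hθ⟩ : ∃ θ : ℝ, (1 - 1 / 250000) * θ =
      1 / 250000 * sm dJ - 3 / 2 / 10 ^ 8 * (X + Sg / 6) :=
    ⟨(1 / 250000 * sm dJ - 3 / 2 / 10 ^ 8 * (X + Sg / 6)) / (1 - 1 / 250000), by field_simp⟩
  have θ0 : 0 ≤ θ := by linarith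
  have SK : Sg ≤ sm σ := by have := sm_le_sm hb.KnK; linarith
  have θ1 : θ ≤ sm σ := by linarith
  obtain ⟨dM, dM0, dM1, dMs⟩ : ∃ d : Fin 3 → ℝ, (∀ i, 0 ≤ d i) ∧ (∀ i, d i ≤ σ i) ∧
      sm d = θ := by
    rcases eq_or_lt_of_le (sm_nonneg hb.s0) with h | h
    · exact ⟨fun _ => 0, fun _ => le_rfl, hb.s0, by unfold sm at *; linarith⟩
    · refine ⟨fun i => σ i * (θ / sm σ), fun i => mul_nonneg (hb.s0 i) (by positivity),
        fun i => mul_le_of_le_one_right (hb.s0 i) ((div_le_one h).2 θ1), ?_⟩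
      have : sm (fun i => σ i * (θ / sm σ)) = sm σ * (θ / sm σ) := by unfold sm; ring
      rw [this]; field_simp
  have sJ : sm (fun i => σ i + dJ i) = sm σ + sm dJ := by unfold sm; ring
  have sM : sm (fun i => σ i - dM i) = sm σ - sm dM := by unfold sm; ring
  have eJ1 : ∀ i, σ i + dJ i ≤ σ i + dJ i := fun i => le_rfl
  have eJ2 : ∀ i, σ i ≤ σ i + dJ i + dJ i := fun i => by have := dJ0 i; linarith
  have eM1 : ∀ i, σ i - dM i ≤ σ i + dM i := fun i => by have := dM0 i; linarith
  have eM2 : ∀ i, σ i ≤ σ i - dM i + dM i := fun i => by linarith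
  have hr : ∀ b i, 0 ≤ (fun b : Bool => bif b then fun i => σ i + dJ i else fun i => σ i - dM i)
      b i ∧ (fun b : Bool => bif b then fun i => σ i + dJ i else fun i => σ i - dM i) b i
      ≤ N i + K i := by
    intro b i
    have := hb.s0 i; have := hb.sR i; have := dJ0 i; have := dM0 i; have := dM1 i
    have : dJ i ≤ N i + K i - σ i := min_le_left _ _
    cases b <;> simp only [cond_true, cond_false] <;> constructor <;> linarith
  refine ⟨_, hr, ?_, ?_⟩
  · have a := pertB D N K dJ0 eJ1 eJ2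
    have b := pertB D N K dM0 eM1 eM2
    simp only [cond_true, cond_false]
    linarith
  · intro y p sl y0 p0 p1 h1 h2
    have s0 : ∀ b i, 0 ≤ sl b i := fun b i =>
      le_trans (le_min (hr b i).1 (le_min (p0 i) (p1 i))) (h1 b i)
    have a := pertA D N K dJ0 eJ1 eJ2 y p (s0 true)
    have b := pertA D N K dM0 eM1 eM2 y p (s0 false)
    have near : ∀ i, N i + K i - σ i ≤ 110 * Sg → p i ≤ sl true i := fun i hi => by
      apply h2 true i
      have : dJ i = N i + K i - σ i := min_eq_left hi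
      simp only [cond_true]; linarith
    have c := hA y p (sl true) ⟨y0, p0, p1, near, fun i => by
      rcases le_total (N i + K i - σ i) (110 * Sg) with h | h
      · exact ((min_le_right _ _).trans (min_le_left _ _)).trans (near i h)
      · refine le_trans (min_le_min_right _ ?_) (h1 true i)
        have : dJ i = 110 * Sg := min_eq_right h
        have := hb.s0 i
        simp only [cond_true]; linarith⟩
    have := sm_nonneg (s0 true)
    have := sm_nonneg (s0 false)
    simp only [cond_true, cond_false]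
    linarith

end Pool.Agent.TwoSrv

end

-- part MP_9d4e03_lc.H37Metric
section

set_option autoImplicit false

/-! Metric part: virtual hidden servers as Katětov functions, one step of the algorithm. -/

namespace Pool.Agent.TwoSrv
variable {M : Type*} [MetricSpace M]

/-- Katětov functions: distance functions to a virtual point -/
structure Kat (F : M → ℝ) : Prop where
  lip : ∀ y z, F y ≤ F z + dist y z
  sep : ∀ y z, dist y z ≤ F y + F z

lemma kat_dist (x : M) : Kat (fun y => dist x y) :=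
  ⟨fun y z => by rw [dist_comm y z]; exact dist_triangle _ _ _,
    fun y z => by rw [dist_comm x y]; exact dist_triangle _ _ _⟩

lemma Kat.nonneg {F : M → ℝ} (h : Kat F) (y : M) : 0 ≤ F y := by
  have := h.sep y y; rw [dist_self] at this; linarith

lemma move {F : M → ℝ} (hF : Kat F) (r r' : M) {σ : ℝ} (h0 : 0 ≤ σ) (h1 : σ ≤ F r) :
    ∃ G : M → ℝ, Kat G ∧ G r = F r - σ ∧ G r' = max (F r' - σ) (dist r r' - (F r - σ)) ∧
      (∀ y, F y - σ ≤ G y) ∧ (∀ y, dist r y - (F r - σ) ≤ G y) ∧
      (∀ y, min σ (min ((F r + F y - dist r y) / 2) ((F y + F r' - dist r' y) / 2))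
        ≤ F y + σ - G y) ∧
      (σ = F r → ∀ y, (F r + F y - dist r y) / 2 ≤ F y + σ - G y) := by
  obtain ⟨t, ht⟩ : ∃ t, t = F r - σ := ⟨_, rfl⟩
  obtain ⟨Q, hQ⟩ : ∃ Q, Q = max (F r' - σ) (dist r r' - t) := ⟨_, rfl⟩
  have Q1 : F r' - σ ≤ Q := hQ ▸ le_max_left _ _
  have Q2 : dist r r' - t ≤ Q := hQ ▸ le_max_right _ _
  have l1 := hF.lip r r'; have l2 := hF.lip r' r; have l3 := hF.sep r r'
  have dc := dist_comm r' r
  have d0 : 0 ≤ dist r r' := dist_nonneg
  have Q3 : Q ≤ F r' + σ := hQ ▸ max_le (by linarith) (by linarith)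
  have Q4 : Q ≤ dist r r' + t := hQ ▸ max_le (by linarith) (by linarith)
  obtain ⟨U, hU⟩ : ∃ U : M → ℝ, ∀ y, U y = min (F y + σ) (min (dist r y + t) (dist r' y + Q)) :=
    ⟨_, fun _ => rfl⟩
  obtain ⟨L, hL⟩ : ∃ L : M → ℝ, ∀ y, L y = max (F y - σ) (max (dist r y - t) (dist r' y - Q)) :=
    ⟨_, fun _ => rfl⟩
  have U1 : ∀ y, U y ≤ F y + σ := fun y => hU y ▸ min_le_left _ _
  have U2 : ∀ y, U y ≤ dist r y + t := fun y =>
    hU y ▸ (min_le_right _ _).trans (min_le_left _ _)
  have U3 : ∀ y, U y ≤ dist r' y + Q := fun y =>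
    hU y ▸ (min_le_right _ _).trans (min_le_right _ _)
  have U4 : ∀ y a, a ≤ F y + σ → a ≤ dist r y + t → a ≤ dist r' y + Q → a ≤ U y :=
    fun y a a1 a2 a3 => hU y ▸ le_min a1 (le_min a2 a3)
  have L1 : ∀ y, F y - σ ≤ L y := fun y => hL y ▸ le_max_left _ _
  have L2 : ∀ y, dist r y - t ≤ L y := fun y =>
    hL y ▸ (le_max_left _ _).trans (le_max_right _ _)
  have L3 : ∀ y, dist r' y - Q ≤ L y := fun y =>
    hL y ▸ (le_max_right _ _).trans (le_max_right _ _)
  have L4 : ∀ y a, F y - σ ≤ a → dist r y - t ≤ a → dist r' y - Q ≤ a → L y ≤ a :=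
    fun y a a1 a2 a3 => hL y ▸ max_le a1 (max_le a2 a3)
  have UL : ∀ y z, dist y z ≤ U y + L z := fun y z => by
    have := U4 y (dist y z - L z) (by have := hF.sep y z; have := L1 z; linarith)
      (by have := (kat_dist r).sep y z; have := L2 z; linarith)
      (by have := (kat_dist r').sep y z; have := L3 z; linarith)
    linarith
  refine ⟨fun y => (U y + L y) / 2, ⟨fun y z => ?_, fun y z => ?_⟩, ?_, ?_, fun y => ?_,
    fun y => ?_, fun y => ?_, fun h y => ?_⟩
  · have a := U4 z (U y - dist y z) (by have := hF.lip y z; have := U1 y; linarith)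
      (by have := (kat_dist r).lip y z; have := U2 y; linarith)
      (by have := (kat_dist r').lip y z; have := U3 y; linarith)
    have b := L4 y (L z + dist y z) (by have := hF.lip y z; have := L1 z; linarith)
      (by have := (kat_dist r).lip y z; have := L2 z; linarith)
      (by have := (kat_dist r').lip y z; have := L3 z; linarith)
    linarith
  · have := UL y z; have := UL z y; have := dist_comm y z; linarith
  · have e := dist_self r
    have a := U4 r t (by linarith) (by linarith) (by linarith)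
    have b := L4 r t (by linarith) (by linarith) (by linarith)
    have := U2 r; have := L1 r
    show (U r + L r) / 2 = _
    linarith
  · have e := dist_self r'
    have a := U4 r' Q (by linarith) (by linarith) (by linarith)
    have b := L4 r' Q (by linarith) (by linarith) (by linarith)
    have c : Q ≤ L r' := hQ ▸ max_le (L1 r') (L2 r')
    have := U3 r'
    show (U r' + L r') / 2 = _
    rw [← ht, ← hQ]; linarith
  · have a := U4 y (F y - σ) (by linarith)
      (by have := hF.lip y r; have := dist_comm y r; linarith)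
      (by have := hF.lip y r'; have := dist_comm y r'; linarith)
    have := L1 y
    linarith
  · have a := U4 y (dist r y - t) (by have := hF.sep r y; linarith) (by linarith)
      (by have := dist_triangle r r' y; linarith)
    have := L2 y
    linarith
  · obtain ⟨w, hw⟩ : ∃ w, w = min σ (min ((F r + F y - dist r y) / 2)
      ((F y + F r' - dist r' y) / 2)) := ⟨_, rfl⟩
    have w1 : w ≤ σ := hw ▸ min_le_left _ _
    have w2 : w ≤ (F r + F y - dist r y) / 2 := hw ▸ (min_le_right _ _).trans (min_le_left _ _)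
    have w3 : w ≤ (F y + F r' - dist r' y) / 2 :=
      hw ▸ (min_le_right _ _).trans (min_le_right _ _)
    have b := L4 y (F y + σ - 2 * w) (by linarith) (by linarith) (by linarith)
    have := U1 y
    rw [← hw]; linarith
  · have b := L4 y (F y + σ) (by linarith) (by have := hF.sep r y; linarith)
      (by have := hF.sep r' y; linarith)
    have := U2 y
    linarith

/-- joint state of the three threads -/
structure GS (M : Type*) [MetricSpace M] where
  r : M
  F : Fin 3 → M → ℝ
  ξ : Fin 3 → M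
  b : Fin 3 → Bool
  C : Fin 3 → ℝ
  kat : ∀ a, Kat (F a)
  cr : ∀ a z, dist (ξ a) z ≤ F a z + C a
  C0 : ∀ a, 0 ≤ C a

/-- real server positions of thread `a` -/
def GS.pos (s : GS M) (a : Fin 3) : M × M := bif s.b a then (s.r, s.ξ a) else (s.ξ a, s.r)
/-- `s'` arises from `s` by moving one server of each thread to `r` -/
def GS.Lazy (s s' : GS M) (r : M) : Prop :=
  s'.r = r ∧ ∀ a, s'.pos a = (r, (s.pos a).2) ∨ s'.pos a = ((s.pos a).1, r)
/-- movement cost -/
noncomputable def mv (x x' : M × M) : ℝ := dist x.1 x'.1 + dist x.2 x'.2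
/-- potential against the adversary position `{r, y}` -/
noncomputable def GS.phi (s : GS M) (y : M) : ℝ :=
  ((2 - 1 / 10 ^ 8) * sm (fun a => s.F a y) + (1 - 1 / 10 ^ 8) * sm (fun a => s.F a s.r)
    + sm s.C) / 3
  + 1 / 10 ^ 8 * T (fun a => (s.F a s.r + s.F a y - dist s.r y) / 2) (fun a => s.F a s.r)

lemma GS.phi_nonneg (s : GS M) (y : M) : 0 ≤ s.phi y := by
  have a := T_lower (p := fun a => (s.F a s.r + s.F a y - dist s.r y) / 2)
    (R := fun a => s.F a s.r) (fun a => by have := (s.kat a).sep s.r y; linarith)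
    (fun a => by have := (s.kat a).lip y s.r; have := dist_comm y s.r; linarith)
  have b := sm_nonneg (p := fun a => s.F a y) fun a => (s.kat a).nonneg y
  have c := sm_nonneg (p := fun a => s.F a s.r) fun a => (s.kat a).nonneg s.r
  have d := sm_nonneg s.C0
  unfold GS.phi; linarith

lemma GS.phi_lip (s : GS M) (y z : M) : s.phi y ≤ s.phi z + (2 - 1 / 10 ^ 8) * dist y z := by
  have k0 : 0 ≤ (dist y z - dist s.r y + dist s.r z) / 2 := by
    have := (kat_dist s.r).lip y z; linarith
  have a := T_shift (fun a => (s.F a s.r + s.F a z - dist s.r z) / 2) (fun a => s.F a s.r) k0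
  have l : ∀ a, 0 ≤ (dist y z - s.F a y + s.F a z) / 2 := fun a => by
    have := (s.kat a).lip y z; linarith
  have b := T_lip (p := fun a => (s.F a s.r + s.F a z - dist s.r z) / 2 +
      (dist y z - dist s.r y + dist s.r z) / 2)
    (q := fun a => (s.F a s.r + s.F a y - dist s.r y) / 2) (R := fun a => s.F a s.r)
    (Q := fun a => s.F a s.r) (d' := fun _ => 0) l (fun _ => le_rfl)
    (fun a => by have := l a; linarith) (fun a => by linarith) (fun a => by linarith)
    (fun a => by linarith)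
  have c := sm_nonneg l
  unfold GS.phi
  unfold sm at *
  linarith

lemma GS.apply (s : GS M) (r' : M) {N K σ : Fin 3 → ℝ}
    (hN : ∀ a, N a = (s.F a s.r - dist s.r r' + s.F a r') / 2)
    (hK : ∀ a, K a = (s.F a s.r + dist s.r r' - s.F a r') / 2)
    (h : ∀ a, 0 ≤ σ a ∧ σ a ≤ N a + K a) :
    ∃ s' : GS M, s.Lazy s' r' ∧ ∀ a, s'.F a s.r = N a + K a - σ a ∧
      s'.F a r' = Rn (dist s.r r') N K σ a ∧
      mv (s.pos a) (s'.pos a) + s'.C a + s'.F a r' ≤
        s.C a + s.F a s.r + 2 * dist s.r r' - 2 * K a ∧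
      (∀ y, min (σ a) (min ((s.F a s.r + s.F a y - dist s.r y) / 2)
        ((s.F a y + s.F a r' - dist r' y) / 2)) ≤ s.F a y + σ a - s'.F a y) ∧
      (σ a = N a + K a → ∀ y, (s.F a s.r + s.F a y - dist s.r y) / 2 ≤
        s.F a y + σ a - s'.F a y) := by
  have hR : ∀ a, N a + K a = s.F a s.r := fun a => by rw [hN, hK]; ring
  choose G g1 g2 g3 g4 g5 g6 g7 using fun a =>
    move (s.kat a) s.r r' (h a).1 (hR a ▸ (h a).2)
  refine ⟨⟨r', G, fun a => if σ a ≤ N a then s.ξ a else s.r,
    fun a => if σ a ≤ N a then s.b a else !s.b a,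
    fun a => if σ a ≤ N a then s.C a + σ a else s.F a s.r - σ a, g1, fun a z => ?_,
    fun a => ?_⟩, ⟨rfl, fun a => ?_⟩, fun a => ⟨by rw [hR]; exact g2 a, ?_, ?_, g6 a,
      fun e => g7 a (hR a ▸ e)⟩⟩
  · split_ifs
    · have := s.cr a z; have := g4 a z; linarith
    · have := g5 a z; linarith
  · split_ifs
    · have := s.C0 a; have := (h a).1; linarith
    · have := (h a).2; have := hR a; linarith
  · simp only [GS.pos]
    split_ifs <;> cases s.b a <;> simp
  · have := hN a; have := hK a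
    simp only [g3, Rn, Nn, Kn]
    rcases le_total (σ a) (N a) with c | c
    · rw [max_eq_left (by linarith), max_eq_right (by linarith), min_eq_left (by linarith)]
      linarith
    · rw [max_eq_right (by linarith), max_eq_left (by linarith), min_eq_right (by linarith)]
      linarith
  · have := hN a; have := hK a
    simp only [g3, GS.pos, mv]
    split_ifs with c
    · rw [max_eq_left (by linarith)]
      cases s.b a <;> simp only [cond_true, cond_false, dist_self] <;> linarith
    · rw [max_eq_right (by linarith)]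
      have := s.cr a r'
      cases s.b a <;>
        simp only [cond_true, cond_false, dist_self, Bool.not_true, Bool.not_false] <;> linarith

/-- average real cost of a transition plus new potential -/
noncomputable def GS.val (s s' : GS M) (y : M) : ℝ :=
  sm (fun a => mv (s.pos a) (s'.pos a)) / 3 + s'.phi y

theorem GS.step (s : GS M) (r' : M) : ∃ s' : Bool → GS M, (∀ b, s.Lazy (s' b) r') ∧
    (∀ y, 1 / 250000 * s.val (s' true) y + (1 - 1 / 250000) * s.val (s' false) y ≤
      s.phi y + (2 - 1 / 10 ^ 8) * dist s.r r') ∧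
    1 / 250000 * s.val (s' true) s.r + (1 - 1 / 250000) * s.val (s' false) s.r ≤ s.phi r' := by
  obtain ⟨N, hN⟩ : ∃ N : Fin 3 → ℝ, ∀ a, N a = (s.F a s.r - dist s.r r' + s.F a r') / 2 :=
    ⟨_, fun _ => rfl⟩
  obtain ⟨K, hK⟩ : ∃ K : Fin 3 → ℝ, ∀ a, K a = (s.F a s.r + dist s.r r' - s.F a r') / 2 :=
    ⟨_, fun _ => rfl⟩
  have hR : (fun a => N a + K a) = fun a => s.F a s.r := by
    funext a; rw [hN, hK]; ring
  obtain ⟨σ, h, hB, hA⟩ := TwoSrv.step (dist s.r r') (N := N) (K := K)
    (fun a => by have := (s.kat a).sep s.r r'; rw [hN]; linarith)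
    (fun a => by have := (s.kat a).lip r' s.r; have := dist_comm r' s.r; rw [hK]; linarith)
  choose s' e1 e2 using fun b => s.apply r' hN hK (h b)
  rw [hR] at hA hB
  have nk := fun b => Nn_add_Kn N K (σ b)
  refine ⟨s', e1, fun y => ?_, ?_⟩
  · have A := hA ((dist s.r r' + dist s.r y - dist r' y) / 2)
      (fun a => (s.F a s.r + s.F a y - dist s.r y) / 2)
      (fun b a => s.F a y + σ b a - (s' b).F a y)
      (by have := (kat_dist s.r).sep r' y; linarith)
      (fun a => by have := (s.kat a).sep s.r y; linarith)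
      (fun a => by have := (s.kat a).sep r' y; rw [hK]; linarith)
      (fun b a => by
        convert (e2 b a).2.2.2.1 y using 3
        rw [hK]; ring)
      (fun b a e => (e2 b a).2.2.2.2 e y)
    have V : ∀ b, s.val (s' b) y ≤ s.phi y + (2 - 1 / 10 ^ 8) * dist s.r r' +
        valA (dist s.r r') N K (σ b) ((dist s.r r' + dist s.r y - dist r' y) / 2)
          (fun a => (s.F a s.r + s.F a y - dist s.r y) / 2)
          (fun a => s.F a y + σ b a - (s' b).F a y)
        - 1 / 10 ^ 8 * T (fun a => (s.F a s.r + s.F a y - dist s.r y) / 2)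
          (fun a => s.F a s.r) := fun b => by
      have q1 : (fun a => (s' b).F a r') = Rn (dist s.r r') N K (σ b) :=
        funext fun a => (e2 b a).2.1
      have q3 : ∀ a, (s' b).F a r' = s.F a s.r + dist s.r r' - σ b a - 2 * Kn N K (σ b) a :=
        fun a => by
          have := nk b a; have := congrFun hR a
          rw [(e2 b a).2.1]; simp only [Rn] at *; linarith
      have q2 : (fun a => ((s' b).F a r' + (s' b).F a y - dist r' y) / 2) =
          fun a => (s.F a s.r + s.F a y - dist s.r y) / 2 +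
            (dist s.r r' + dist s.r y - dist r' y) / 2 - Kn N K (σ b) a -
            (s.F a y + σ b a - (s' b).F a y) / 2 := funext fun a => by rw [q3]; ring
      have := (e2 b 0).2.2.1; have := (e2 b 1).2.2.1; have := (e2 b 2).2.2.1
      have := q3 0; have := q3 1; have := q3 2
      unfold GS.val GS.phi valA
      rw [(e1 b).1, q2]
      nth_rewrite 2 [q1]
      unfold sm
      linarith
    have := V true; have := V false
    linarith
  · have V : ∀ b, s.val (s' b) s.r ≤ s.phi r' + valB (dist s.r r') N K (σ b)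
        - 1 / 10 ^ 8 * T N (fun a => s.F a s.r) := fun b => by
      have q1 : (fun a => (s' b).F a r') = Rn (dist s.r r') N K (σ b) :=
        funext fun a => (e2 b a).2.1
      have q3 : ∀ a, (s' b).F a r' = dist s.r r' + Nn N (σ b) a - Kn N K (σ b) a :=
        fun a => by rw [(e2 b a).2.1]; simp only [Rn]; ring
      have q2 : (fun a => ((s' b).F a r' + (s' b).F a s.r - dist r' s.r) / 2) = Nn N (σ b) :=
        funext fun a => by
          have := nk b a
          rw [q3, (e2 b a).1, dist_comm r' s.r]; linarith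
      have q4 : (fun a => (s.F a s.r + s.F a r' - dist s.r r') / 2) = N :=
        funext fun a => by rw [hN]; ring
      have := (e2 b 0).2.2.1; have := (e2 b 1).2.2.1; have := (e2 b 2).2.2.1
      have := (e2 b 0).1; have := (e2 b 1).1; have := (e2 b 2).1
      have := q3 0; have := q3 1; have := q3 2
      have := nk b 0; have := nk b 1; have := nk b 2
      have := hN 0; have := hN 1; have := hN 2
      have := hK 0; have := hK 1; have := hK 2
      unfold GS.val GS.phi valB
      rw [(e1 b).1, q2, q4]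
      nth_rewrite 2 [q1]
      unfold sm
      linarith
    have := V true; have := V false
    linarith

end Pool.Agent.TwoSrv

end

-- part MP_9d4e03_lc.H37Game
section

set_option autoImplicit false

/-! The randomized algorithm on `[0,1)` and its competitive analysis. -/

namespace Pool.Agent.TwoSrv
open MeasureTheory
variable {M : Type*} [MetricSpace M]

/-- potential against an arbitrary adversary configuration -/
noncomputable def GS.Phi (s : GS M) (x : M × M) : ℝ :=
  min ((2 - 1 / 10 ^ 8) * dist x.1 s.r + s.phi x.2) ((2 - 1 / 10 ^ 8) * dist x.2 s.r + s.phi x.1)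

lemma GS.Phi_nonneg (s : GS M) (x : M × M) : 0 ≤ s.Phi x :=
  le_min (add_nonneg (by positivity) (s.phi_nonneg _)) (add_nonneg (by positivity) (s.phi_nonneg _))

theorem GS.game (s : GS M) (r' : M) : ∃ s' : Bool → GS M, (∀ b, s.Lazy (s' b) r') ∧
    ∀ x x' : M × M, (r' = x'.1 ∨ r' = x'.2) →
      1 / 250000 * (sm (fun a => mv (s.pos a) ((s' true).pos a)) / 3 + (s' true).Phi x') +
      (1 - 1 / 250000) * (sm (fun a => mv (s.pos a) ((s' false).pos a)) / 3 + (s' false).Phi x')
        ≤ s.Phi x + (2 - 1 / 10 ^ 8) * mv x x' := by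
  obtain ⟨s', e, hA, hB⟩ := s.step r'
  have key : ∀ u v v' : M, 1 / 250000 * s.val (s' true) v' + (1 - 1 / 250000) * s.val (s' false) v'
      ≤ s.Phi (u, v) + (2 - 1 / 10 ^ 8) * (dist u r' + dist v v') := fun u v v' => by
    rcases min_choice ((2 - 1 / 10 ^ 8) * dist u s.r + s.phi v)
      ((2 - 1 / 10 ^ 8) * dist v s.r + s.phi u) with h | h <;> simp only [GS.Phi] <;> rw [h]
    · have := hA v'
      have := s.phi_lip v' v
      have := dist_triangle_left s.r r' u
      have := dist_comm v' v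
      linarith
    · have := s.phi_lip r' u
      have := (s' true).phi_lip v' s.r
      have := (s' false).phi_lip v' s.r
      have := dist_triangle_left v' s.r v
      have := dist_comm r' u
      unfold GS.val at *
      linarith
  refine ⟨s', e, fun x x' h => ?_⟩
  rcases h with h | h
  · have k := key x.1 x.2 x'.2
    have a : ∀ b, (s' b).Phi x' ≤ (s' b).phi x'.2 := fun b =>
      (min_le_left _ _).trans (by rw [(e b).1, ← h, dist_self]; simp)
    have := a true; have := a false
    unfold GS.val at k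
    unfold mv at *
    rw [← h]; linarith
  · have k := key x.2 x.1 x'.1
    have a : ∀ b, (s' b).Phi x' ≤ (s' b).phi x'.1 := fun b =>
      (min_le_right _ _).trans (by rw [(e b).1, ← h, dist_self]; simp)
    have := a true; have := a false
    have : s.Phi (x.2, x.1) = s.Phi x := min_comm _ _
    unfold GS.val at k
    unfold mv at *
    rw [← h]; linarith

/-- the transition function -/
noncomputable def nx (s : GS M) (r : M) : Bool → GS M := (s.game r).choose

/-- expected cost of thread `a` -/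
noncomputable def V (a : Fin 3) : GS M → List M → ℝ
  | _, [] => 0
  | s, r :: l => 1 / 250000 * (mv (s.pos a) ((nx s r true).pos a) + V a (nx s r true) l) +
      (1 - 1 / 250000) * (mv (s.pos a) ((nx s r false).pos a) + V a (nx s r false) l)

lemma mv_nonneg (x x' : M × M) : 0 ≤ mv x x' := add_nonneg dist_nonneg dist_nonneg

lemma V_nonneg (a : Fin 3) (l : List M) : ∀ s : GS M, 0 ≤ V a s l := by
  induction l with
  | nil => intro s; exact le_rfl
  | cons r l ih =>
    intro s
    have := ih (nx s r true); have := ih (nx s r false)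
    have := mv_nonneg (s.pos a) ((nx s r true).pos a)
    have := mv_nonneg (s.pos a) ((nx s r false).pos a)
    simp only [V]; positivity

theorem compet (l : List M) : ∀ (s : GS M) (x : ℕ → M × M),
    (∀ i < l.length, l[i]? = some (x (i + 1)).1 ∨ l[i]? = some (x (i + 1)).2) →
    sm (fun a => V a s l) / 3 ≤ s.Phi (x 0) +
      (2 - 1 / 10 ^ 8) * ∑ i ∈ Finset.range l.length, mv (x i) (x (i + 1)) := by
  induction l with
  | nil => intro s x _; simpa [V, sm] using s.Phi_nonneg (x 0)
  | cons r l ih =>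
    intro s x h
    have h' : ∀ i < l.length, l[i]? = some (x (i + 1 + 1)).1 ∨ l[i]? = some (x (i + 1 + 1)).2 :=
      fun i hi => by simpa using h (i + 1) (by simpa using hi)
    have a := ih (nx s r true) (fun i => x (i + 1)) h'
    have b := ih (nx s r false) (fun i => x (i + 1)) h'
    have c := (s.game r).choose_spec.2 (x 0) (x 1) (by simpa using h 0 (by simp))
    rw [List.length_cons, Finset.sum_range_succ']
    simp only [V, sm, nx, zero_add] at *
    linarith

/-- one step of the algorithm driven by the real number `u` -/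
noncomputable def run (u : ℝ) (s : GS M × ℝ × ℝ) (r : M) : GS M × ℝ × ℝ :=
  if u < s.2.1 + 1 / 250000 * (s.2.2 - s.2.1) then
    (nx s.1 r true, s.2.1, s.2.1 + 1 / 250000 * (s.2.2 - s.2.1))
  else (nx s.1 r false, s.2.1 + 1 / 250000 * (s.2.2 - s.2.1), s.2.2)

lemma run_lazy (u : ℝ) (s : GS M × ℝ × ℝ) (r : M) : s.1.Lazy (run u s r).1 r := by
  unfold run; split_ifs <;> exact (s.1.game r).choose_spec.1 _

/-- real cost of thread `a` -/
noncomputable def cst (a : Fin 3) (u : ℝ) (s : GS M × ℝ × ℝ) (l : List M) : ℝ :=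
  ∑ i ∈ Finset.range l.length, mv (((l.take i).foldl (run u) s).1.pos a)
    (((l.take (i + 1)).foldl (run u) s).1.pos a)

lemma cst_nonneg (a : Fin 3) (u : ℝ) (s : GS M × ℝ × ℝ) (l : List M) : 0 ≤ cst a u s l :=
  Finset.sum_nonneg fun _ _ => mv_nonneg _ _

lemma cst_cons (a : Fin 3) (u : ℝ) (s : GS M × ℝ × ℝ) (r : M) (l : List M) :
    cst a u s (r :: l) = mv (s.1.pos a) ((run u s r).1.pos a) + cst a u (run u s r) l := by
  unfold cst
  rw [List.length_cons, Finset.sum_range_succ', add_comm]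
  simp

lemma cst_meas (a : Fin 3) (l : List M) :
    ∀ s : GS M × ℝ × ℝ, Measurable fun u => cst a u s l := by
  induction l with
  | nil => intro s; simp [cst]
  | cons r l ih =>
    intro s
    have : (fun u => cst a u s (r :: l)) = fun u =>
        if u < s.2.1 + 1 / 250000 * (s.2.2 - s.2.1) then
          mv (s.1.pos a) ((nx s.1 r true).pos a) +
            cst a u (nx s.1 r true, s.2.1, s.2.1 + 1 / 250000 * (s.2.2 - s.2.1)) l
        else mv (s.1.pos a) ((nx s.1 r false).pos a) +
            cst a u (nx s.1 r false, s.2.1 + 1 / 250000 * (s.2.2 - s.2.1), s.2.2) l := by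
      funext u; rw [cst_cons]; unfold run; split_ifs <;> rfl
    rw [this]
    exact Measurable.ite measurableSet_Iio ((ih _).const_add _) ((ih _).const_add _)

lemma lint_split {lo mid hi : ℝ} (h1 : lo ≤ mid) (h2 : mid ≤ hi) (f : ℝ → ENNReal) :
    ∫⁻ u in Set.Ico lo hi, f u = (∫⁻ u in Set.Ico lo mid, f u) + ∫⁻ u in Set.Ico mid hi, f u := by
  rw [← Set.Ico_union_Ico_eq_Ico h1 h2, lintegral_union measurableSet_Ico]
  exact Set.disjoint_left.2 fun x a b => absurd a.2 (not_lt.2 b.1)

lemma lint_add {lo hi c v : ℝ} (h : lo ≤ hi) (hc : 0 ≤ c) (hv : 0 ≤ v) {f g : ℝ → ℝ}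
    (hg : ∀ u, 0 ≤ g u) (e : ∀ u ∈ Set.Ico lo hi, f u = c + g u)
    (i : ∫⁻ u in Set.Ico lo hi, ENNReal.ofReal (g u) = ENNReal.ofReal ((hi - lo) * v)) :
    ∫⁻ u in Set.Ico lo hi, ENNReal.ofReal (f u) = ENNReal.ofReal ((hi - lo) * (c + v)) := by
  have h' : 0 ≤ hi - lo := by linarith
  rw [setLIntegral_congr_fun measurableSet_Ico (g := fun u => ENNReal.ofReal c +
      ENNReal.ofReal (g u)) (fun u hu => by simp only [e u hu, ENNReal.ofReal_add hc (hg u)]),
    lintegral_add_left measurable_const, i, setLIntegral_const, Real.volume_Ico,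
    ← ENNReal.ofReal_mul hc, ← ENNReal.ofReal_add (by positivity) (by positivity)]
  congr 1; ring

theorem cst_int (a : Fin 3) (l : List M) : ∀ (s : GS M) (lo hi : ℝ), lo ≤ hi →
    ∫⁻ u in Set.Ico lo hi, ENNReal.ofReal (cst a u (s, lo, hi) l) =
      ENNReal.ofReal ((hi - lo) * V a s l) := by
  induction l with
  | nil => intro s lo hi _; simp [cst, V]
  | cons r l ih =>
    intro s lo hi h
    have h1 : lo ≤ lo + 1 / 250000 * (hi - lo) := by linarith
    have h2 : lo + 1 / 250000 * (hi - lo) ≤ hi := by linarith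
    have m1 := mv_nonneg (s.pos a) ((nx s r true).pos a)
    have m2 := mv_nonneg (s.pos a) ((nx s r false).pos a)
    have v1 := V_nonneg a l (nx s r true)
    have v2 := V_nonneg a l (nx s r false)
    rw [lint_split h1 h2,
      lint_add h1 m1 v1 (fun u => cst_nonneg _ _ _ _)
        (fun u hu => by rw [cst_cons]; unfold run; rw [if_pos hu.2]) (ih _ _ _ h1),
      lint_add h2 m2 v2 (fun u => cst_nonneg _ _ _ _)
        (fun u hu => by rw [cst_cons]; unfold run; rw [if_neg (not_lt.2 hu.1)]) (ih _ _ _ h2),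
      ← ENNReal.ofReal_add (mul_nonneg (by linarith) (by linarith))
        (mul_nonneg (by linarith) (by linarith))]
    congr 1; simp only [V]; ring

/-- initial state -/
noncomputable def init0 (x : M × M) : GS M :=
  ⟨x.1, fun _ y => dist x.2 y, fun _ => x.2, fun _ => true, fun _ => 0, fun _ => kat_dist _,
    fun _ _ => by simp, fun _ => le_rfl⟩

/-- choice of the thread -/
noncomputable def th (u : ℝ) : Fin 3 × ℝ × ℝ :=
  if u < 1 / 3 then (0, 0, 1 / 3) else if u < 2 / 3 then (1, 1 / 3, 2 / 3) else (2, 2 / 3, 1)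

/-- the algorithm -/
noncomputable def alg (x : M × M) (u : ℝ) (l : List M) : M × M :=
  (l.foldl (run u) (init0 x, (th u).2)).1.pos (th u).1

lemma alg_lazy (x : M × M) (u : ℝ) (l : List M) (r : M) :
    alg x u (l ++ [r]) = (r, (alg x u l).2) ∨ alg x u (l ++ [r]) = ((alg x u l).1, r) := by
  unfold alg
  rw [List.foldl_append, List.foldl_cons, List.foldl_nil]
  exact (run_lazy _ _ _).2 _

lemma alg_serve (x : M × M) (u : ℝ) (l : List M) (r : M) :
    (alg x u (l ++ [r])).1 = r ∨ (alg x u (l ++ [r])).2 = r :=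
  (alg_lazy x u l r).imp (congrArg Prod.fst) (congrArg Prod.snd)

lemma sum_edist (n : ℕ) (x : ℕ → M × M) :
    ∑ i ∈ Finset.range n, (edist (x i).1 (x (i + 1)).1 + edist (x i).2 (x (i + 1)).2) =
      ENNReal.ofReal (∑ i ∈ Finset.range n, mv (x i) (x (i + 1))) := by
  rw [ENNReal.ofReal_sum_of_nonneg fun _ _ => mv_nonneg _ _]
  refine Finset.sum_congr rfl fun i _ => ?_
  rw [mv, ENNReal.ofReal_add dist_nonneg dist_nonneg, edist_dist, edist_dist]

lemma alg_cost (x : M × M) (l : List M) : (fun u => ∑ i ∈ Finset.range l.length,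
    (edist (alg x u (l.take i)).1 (alg x u (l.take (i + 1))).1
      + edist (alg x u (l.take i)).2 (alg x u (l.take (i + 1))).2)) =
    fun u => ENNReal.ofReal (cst (th u).1 u (init0 x, (th u).2) l) :=
  funext fun u => sum_edist l.length fun i => alg x u (l.take i)

lemma alg_meas (x : M × M) (l : List M) :
    Measurable fun u => ENNReal.ofReal (cst (th u).1 u (init0 x, (th u).2) l) := by
  have : (fun u => cst (th u).1 u (init0 x, (th u).2) l) = fun u =>
      if u < 1 / 3 then cst 0 u (init0 x, 0, 1 / 3) l else if u < 2 / 3 then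
        cst 1 u (init0 x, 1 / 3, 2 / 3) l else cst 2 u (init0 x, 2 / 3, 1) l := by
    funext u; unfold th; split_ifs <;> rfl
  refine Measurable.ennreal_ofReal ?_
  rw [this]
  exact Measurable.ite measurableSet_Iio (cst_meas _ _ _)
    (Measurable.ite measurableSet_Iio (cst_meas _ _ _) (cst_meas _ _ _))

lemma alg_int (x : M × M) (l : List M) :
    ∫⁻ u in Set.Ico (0 : ℝ) 1, ENNReal.ofReal (cst (th u).1 u (init0 x, (th u).2) l) =
      ENNReal.ofReal (sm (fun a => V a (init0 x) l) / 3) := by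
  have v0 := V_nonneg 0 l (init0 x)
  have v1 := V_nonneg 1 l (init0 x)
  have v2 := V_nonneg 2 l (init0 x)
  rw [lint_split (mid := 1 / 3) (by norm_num) (by norm_num),
    lint_split (lo := 1 / 3) (mid := 2 / 3) (by norm_num) (by norm_num),
    setLIntegral_congr_fun (s := Set.Ico 0 (1 / 3)) measurableSet_Ico
      (g := fun u => ENNReal.ofReal (cst 0 u (init0 x, 0, 1 / 3) l))
      (fun u hu => by simp only [th, if_pos hu.2]),
    setLIntegral_congr_fun (s := Set.Ico (1 / 3) (2 / 3)) measurableSet_Ico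
      (g := fun u => ENNReal.ofReal (cst 1 u (init0 x, 1 / 3, 2 / 3) l))
      (fun u hu => by simp only [th, if_neg (not_lt.2 hu.1), if_pos hu.2]),
    setLIntegral_congr_fun (s := Set.Ico (2 / 3) 1) measurableSet_Ico
      (g := fun u => ENNReal.ofReal (cst 2 u (init0 x, 2 / 3, 1) l))
      (fun u hu => by
        have : ¬ u < 1 / 3 := by have := hu.1; intro h; linarith
        simp only [th, if_neg (not_lt.2 hu.1), if_neg this]),
    cst_int _ _ _ _ _ (by norm_num), cst_int _ _ _ _ _ (by norm_num),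
    cst_int _ _ _ _ _ (by norm_num), ← ENNReal.ofReal_add (by linarith) (by linarith),
    ← ENNReal.ofReal_add (by linarith) (by linarith)]
  congr 1; unfold sm; ring

end Pool.Agent.TwoSrv

end
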